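import Pool.Agent.R391.ZZ.BPS2

open MeasureTheory ProbabilityTheory InformationTheory
open scoped ENNReal

namespace Pool.Agent.Results.MP_2024f4_pr.NoUniformEntropyRate

open Pool.Agent.R391.ZZ

/-- Entropic convergence at a rate not depending on the initial law fails for the Zig-Zag process
and for the Bouncy Particle Sampler, for a potential on the line with all standing assumptions
and the logarithmic Sobolev inequality, for every refreshment rate. -/
theorem result : ∃ U : ℝ → ℝ, Admissible U ∧ LogSobolev (gibbs U) ∧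
    ∀ γ : ℝ, 0 < γ → ∀ lam : ℝ, 0 < lam →
      (∃ p₀ : Measure (ℝ × ℝ), IsProbabilityMeasure p₀ ∧ ExpTails p₀ ∧
        klDiv p₀ ((gibbs U).prod rademacher) ≠ ∞ ∧
        ∀ (Ω : Type) [MeasurableSpace Ω] (P : Measure Ω) (X V : ℝ → Ω → ℝ),
          IsZigZag U γ p₀ P X V →
          ¬ ∃ C : ℝ, ∀ t, 0 ≤ t →
            klDiv (P.map fun ω => (X t ω, V t ω)) ((gibbs U).prod rademacher) ≤
              ENNReal.ofReal (C * Real.exp (-(lam * t)))) ∧
      (∃ p₀ : Measure (ℝ × ℝ), IsProbabilityMeasure p₀ ∧ ExpTails p₀ ∧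
        klDiv p₀ ((gibbs U).prod (gaussianReal 0 1)) ≠ ∞ ∧
        ∀ (Ω : Type) [MeasurableSpace Ω] (P : Measure Ω) (X V : ℝ → Ω → ℝ),
          IsBPS U γ p₀ P X V →
          ¬ ∃ C : ℝ, ∀ t, 0 ≤ t →
            klDiv (P.map fun ω => (X t ω, V t ω)) ((gibbs U).prod (gaussianReal 0 1)) ≤
              ENNReal.ofReal (C * Real.exp (-(lam * t)))) := by
  refine ⟨U2, adm_U2, by rw [gibbs_U2]; exact gaussian_lsi, fun γ hγ lam hlam => ⟨?_, ?_⟩⟩
  · have ha : 0 < lam / 3 := by positivity
    have := lap_prob ha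
    refine ⟨(lap (lam / 3)).prod rademacher, inferInstance, ⟨lam / 6, by positivity, ?_⟩, ?_,
      fun Ω _ P X V h => zz_no_decay ha (by linarith) h⟩
    · exact (lap_exp ha (by linarith)).comp_fst _
    · rw [gibbs_U2]
      exact kl_ne_top ha _
  · have ha : 0 < lam / 5 := by positivity
    have := lap_prob ha
    refine ⟨(lap (lam / 5)).prod (gaussianReal 0 1), inferInstance, ⟨lam / 10, by positivity, ?_⟩,
      ?_, fun Ω _ P X V h => bps_no_decay hγ ha (by linarith) h⟩
    · exact (lap_exp ha (by linarith)).comp_fst _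
    · rw [gibbs_U2]
      exact kl_ne_top ha _

end Pool.Agent.Results.MP_2024f4_pr.NoUniformEntropyRate
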